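import Mathlib
import Pool.Agent.Q29.OvX
import Pool.Agent.Q29.HypInd4

/-!
# Periods of the fibres of products of hyperelliptic families: uniform distribution of the multiples of the values

Let `n = 2 g'` be even, `a_1 < ⋯ < a_n` real numbers and `C_t` the family of the curves `y ^ 2 = ∏ (x - a_i) (x - t)` of genus `g'`,
for `t` in one of the `n + 1` gaps `(c, y)` between the `a_i`. The `n ^ 2` periods `∫ x ^ j dx / y` over the segments between
successive branch points satisfy the relations of Riemann and Legendre, and these leave `n (n + 1) / 2 = dim Sp_n` of them. The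
functions are these `n (n + 1) / 2` periods, the `l`-th segment and the form `x ^ j dx / y` with `j ≤ l`, and the periods
`K(s), E(s), K(1 - s)`, `s = (t - α_i) / (γ_i - α_i)`, of `N` Legendre families with `α_i, γ_i` in the gap: all periods, up to the
relations given by the polarisations, of the fibres of the product `C_t × E_(s_1) × ⋯ × E_(s_N)`, and for several points `q_j` of the
fibres of the product family over `S ^ n`.
Let `ξ_1, …, ξ_g` be ARBITRARY real numbers, which may depend on `T` and may be as large as `T ^ H`, for instance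
`π`, the `a_i`, the periods of other varieties, and a basis of a real number field.
Let `F` be a number field of degree at most `m` with an embedding in the complex numbers, and let `X` be any finite set of
numbers of `F` in `[a, b]` which are quotients of integers of `F` with conjugates at most `T`. For all but `C T ^ ε |X| ^ (n - 1)`
of the `n`-tuples of elements `q_j` of `X` the following holds: every value `y` of a polynomial of partial degrees at most `d` at
the numbers `f_i(q_j)`, where the `f_i` are these functions, whose coefficients are polynomials in the `ξ_i` of partial degrees at most `d` with integer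
coefficients at most `T ^ A`, one of the nonconstant ones being at least `T ^ (-H)` in absolute value, has uniformly distributed
multiples at all the scales `M` between `T ^ B` and `T ^ E`: `k y`, `k < M`, also for `k` in the set of the powers of fixed exponent
or of the prime numbers in a residue class, is uniformly distributed modulo one with an error `M ^ (1 - κ)`. The constants do not
depend on the field, on the set `X` and on the numbers `ξ_i`.

The proof uses the theorem of helper23 on approximate relations over arbitrary constants at algebraic points (`Q23.AQ.fewR`,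
from the starting files `Y124`, `Y771`), the invariance of the relations under the symplectic group (starting files of
helper118, `Y118.HP.func_inv`) and a new theorem on the independence of the functions (`Q29.HypInd.fH_ind`: the entries on and
below the diagonal of the period matrix are algebraically independent over `ℝ(t)`), periods of Legendre families (`Q23.AQ.comb_leg`),
an inverse theorem for the sums of Weyl and a form of the estimate of Vinogradov for the sums over primes (`H373R2/NB`, `W110/HV`).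
-/

set_option autoImplicit false

namespace Pool.Agent.Results.MP_5591bc_ag.MultiplesOfPeriods

open Finset Polynomial

/-- The multiples of `x` are uniformly distributed at the scale `M`, with a power saving, along all polynomials of degree
at most `K` and along the primes of all residue classes:

* for every nonzero integer `b` with `|b| ≤ M ^ κ`, every `1 ≤ k ≤ K` and every real polynomial `R` of degree less than
  `k`, the number of `0 ≤ n < M` with the fractional part of `b x n ^ k + R(n)` in `[u, v)` is `(v - u) M` up to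
  `M ^ (1 - κ)`, for all `0 ≤ u ≤ v ≤ 1`;
* for every such `b`, every `1 ≤ d ≤ M ^ κ`, every `r` and every real `β`, the number of primes `p ≤ M` with
  `p ≡ r (mod d)` and the fractional part of `b x p + β` in `[u, v)` is `(v - u)` times the number of all the primes
  `p ≤ M` with `p ≡ r (mod d)`, up to `M ^ (1 - κ)`. -/
def Good (κ : ℝ) (K M : ℕ) (x : ℝ) : Prop :=
  (∀ b : ℤ, b ≠ 0 → |(b : ℝ)| ≤ (M : ℝ) ^ κ → ∀ k : ℕ, 1 ≤ k → k ≤ K → ∀ R : ℝ[X], R.degree < k →
    ∀ u v : ℝ, 0 ≤ u → u ≤ v → v ≤ 1 →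
      |(((range M).filter fun n : ℕ => u ≤ Int.fract (b * x * (n : ℝ) ^ k + R.eval (n : ℝ)) ∧
          Int.fract (b * x * (n : ℝ) ^ k + R.eval (n : ℝ)) < v).card : ℝ) - (v - u) * M| ≤
        (M : ℝ) ^ (1 - κ)) ∧
  (∀ b : ℤ, b ≠ 0 → |(b : ℝ)| ≤ (M : ℝ) ^ κ → ∀ d r : ℕ, 1 ≤ d → (d : ℝ) ≤ (M : ℝ) ^ κ → ∀ β : ℝ,
    ∀ u v : ℝ, 0 ≤ u → u ≤ v → v ≤ 1 →
      |(((range (M + 1)).filter fun p : ℕ => (p.Prime ∧ p ≡ r [MOD d]) ∧
          (u ≤ Int.fract (b * x * p + β) ∧ Int.fract (b * x * p + β) < v)).card : ℝ) -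
        (v - u) * ((range (M + 1)).filter fun p : ℕ => p.Prime ∧ p ≡ r [MOD d]).card| ≤
        (M : ℝ) ^ (1 - κ))

/-- The value at `y` of the polynomial `P` whose coefficients are integer polynomials in the numbers `ξ_1, …, ξ_g`. -/
noncomputable def value {g : ℕ} {τ : Type} (ξ : Fin g → ℝ) (y : τ → ℝ) (P : MvPolynomial τ (MvPolynomial (Fin g) ℤ)) : ℝ :=
  MvPolynomial.eval₂ (MvPolynomial.aeval ξ : MvPolynomial (Fin g) ℤ →ₐ[ℤ] ℝ).toRingHom y P

/-- The polynomials of degree at most `d` in every variable whose coefficients are polynomials in `ξ_1, …, ξ_g` of degree at most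
`d` in every variable with integer coefficients of absolute value at most `R`, with a nonconstant coefficient whose value is at
least `r` in absolute value. -/
def Admissible {g : ℕ} {τ : Type} (ξ : Fin g → ℝ) (d : ℕ) (R r : ℝ) (P : MvPolynomial τ (MvPolynomial (Fin g) ℤ)) : Prop :=
  (∀ j, P.degreeOf j ≤ d) ∧ (∀ e i, (P.coeff e).degreeOf i ≤ d) ∧ (∀ e u, |(((P.coeff e).coeff u : ℤ) : ℝ)| ≤ R) ∧
    ∃ e, e ≠ 0 ∧ r ≤ |MvPolynomial.aeval ξ (P.coeff e)|

/-- The numbers of a number field `F`, with an embedding `ι`, which are in `[a, b]` and are quotients of integers of `F` all of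
whose conjugates have absolute value at most `T`. -/
def IsPoint {F : Type} [Field F] (ι : F →+* ℂ) (a b T : ℝ) (x : F) : Prop :=
  (∃ t : ℝ, a ≤ t ∧ t ≤ b ∧ ι x = t) ∧
    ∃ α β : NumberField.RingOfIntegers F, β ≠ 0 ∧ (∀ φ : F →+* ℂ, ‖φ α‖ ≤ T ∧ ‖φ β‖ ≤ T) ∧ x = α / β

/-- The `n`-tuples `q` of numbers of `X` for which there are an admissible polynomial `P` and an `M` between `T ^ B` and `T ^ E`
such that the multiples of its value at the numbers `f_i(q_j)` are not uniformly distributed at the scale `M`. -/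
def Exceptional {κ F : Type} [Field F] {g : ℕ} (n : ℕ) (f : κ → ℝ → ℝ) (ι : F →+* ℂ) (X : Finset F) (ξ : Fin g → ℝ)
    (d K : ℕ) (A H κ₀ B E T : ℝ) : Set (Fin n → F) :=
  {q | (∀ j, q j ∈ X) ∧
    ∃ P : MvPolynomial (Fin n × κ) (MvPolynomial (Fin g) ℤ), Admissible ξ d (T ^ A) (T ^ (-H)) P ∧
      ∃ M : ℕ, T ^ B ≤ (M : ℝ) ∧ (M : ℝ) ≤ T ^ E ∧ ¬ Good κ₀ K M (value ξ (fun z => f z.2 (ι (q z.1)).re) P)}

/-- The assertion for the functions `f_i` on `[a, b]`. -/
def FewExceptions {κ : Type} (f : κ → ℝ → ℝ) (a b : ℝ) : Prop :=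
  ∀ (m n g d K : ℕ) (H A ε : ℝ), 0 ≤ H → 0 ≤ A → 0 < ε → ∃ B : ℝ, 1 ≤ B ∧ ∀ E : ℝ, ∃ κ₀ : ℝ, 0 < κ₀ ∧ ∃ C T₀ : ℝ,
    ∀ (F : Type) [Field F] [NumberField F], Module.finrank ℚ F ≤ m → ∀ (ι : F →+* ℂ) (ξ : Fin g → ℝ) (T : ℝ), T₀ ≤ T →
      (∀ i, |ξ i| ≤ T ^ H) → ∀ X : Finset F, (∀ x ∈ X, IsPoint ι a b T x) →
        (Exceptional n f ι X ξ d K A H κ₀ B E T).Finite ∧
        ((Exceptional n f ι X ξ d K A H κ₀ B E T).ncard : ℝ) ≤ C * T ^ ε * (X.card : ℝ) ^ (n - 1)

/-- The branch points: `t` inserted at place `m` in the sequence of the `a i`. -/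
noncomputable def branch {n : ℕ} (a : Fin n → ℝ) (m : Fin (n + 1)) (t : ℝ) : Fin (n + 1) → ℝ :=
  Fin.insertNth (α := fun _ => ℝ) m t a

/-- The period `∫ x^j dx / √|∏ (x - e i)|` over the segment `[e l, e (l + 1)]`. -/
noncomputable def period {n : ℕ} (e : Fin (n + 1) → ℝ) (l j : Fin n) : ℝ :=
  ∫ x in (e l.castSucc)..(e l.succ), x ^ (j : ℕ) / √|∏ i, (x - e i)|

/-- The complete elliptic integral of the first kind, `K(s) = ∫_0^{π/2} (1 - s sin²θ)^(-1/2) dθ`. -/
noncomputable def K (s : ℝ) : ℝ := ∫ θ in (0 : ℝ)..(Real.pi / 2), 1 / √(1 - s * Real.sin θ ^ 2)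

/-- The complete elliptic integral of the second kind, `E(s) = ∫_0^{π/2} (1 - s sin²θ)^(1/2) dθ`. -/
noncomputable def E (s : ℝ) : ℝ := ∫ θ in (0 : ℝ)..(Real.pi / 2), √(1 - s * Real.sin θ ^ 2)

/-- The functions `K(s)`, `E(s)`, `K(1 - s)` for `s = (t - α_i) / (γ_i - α_i)`, `i < N`, and the periods of
`y ^ 2 = ∏ (x - a_i) (x - t)` for the pairs `(l, j)` with `j ≤ l`. -/
noncomputable def functions {n N : ℕ} (a : Fin n → ℝ) (m : Fin (n + 1)) (α γ : Fin N → ℝ)
    (z : (Fin N × Fin 3) ⊕ {x : Fin n × Fin n // x.2 ≤ x.1}) (t : ℝ) : ℝ :=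
  match z with
  | Sum.inl (j, i) => ![K ((t - α j) / (γ j - α j)), E ((t - α j) / (γ j - α j)), K (1 - (t - α j) / (γ j - α j))] i
  | Sum.inr x => period (branch a m t) x.1.1 x.1.2

theorem few {κ : Type} [Fintype κ] [DecidableEq κ] (f : κ → ℝ → ℝ) (a b : ℝ)
    (han : ∀ i, AnalyticOnNhd ℝ (f i) (Set.Icc a b)) (hind : Pool.Agent.Y120.AInd f a b) : FewExceptions f a b := by
  intro m n g d K H A ε hH hA hε
  obtain ⟨B, hB, h⟩ := Pool.Agent.Q29.Eqd.badX_count f a b han hind m n g d K H A ε hH hA hε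
  refine ⟨B, hB, fun E => ?_⟩
  obtain ⟨κ₀, C, T₀, hκ₀, hC⟩ := h E
  refine ⟨κ₀, hκ₀, C, T₀, fun F _ _ hF ι ξ T hT hξ X hX => ?_⟩
  have hsub : Exceptional n f ι X ξ d K A H κ₀ B E T ⊆ Pool.Agent.Q29.Eqd.BadX n g d K ι X f (T ^ A) (T ^ (-H)) κ₀ (T ^ B) (T ^ E) ξ := by
    rintro q ⟨hq, P, ⟨hP1, hP2, hP3, hP4⟩, hbad⟩
    exact ⟨hq, P, hP1, hP2, hP3, hP4, hbad⟩
  have hfin := Pool.Agent.Q29.Eqd.badX_fin n g d K ι X f (T ^ A) (T ^ (-H)) κ₀ (T ^ B) (T ^ E) ξ
  refine ⟨hfin.subset hsub, le_trans ?_ (hC F hF ι ξ T hT hξ X hX)⟩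
  exact_mod_cast Set.ncard_le_ncard hsub hfin

/-- Let `n` be even, `m ≤ n` and `a_1, …, a_n` real numbers such that for all `t` in `(c, y)` the numbers `a_i` with `t` inserted at
place `m` are strictly increasing, let `c < α_N < ⋯ < α_1 < A < B < γ_1 < ⋯ < γ_N < y` (for `N = 0`: `c < A < B < y`). -/
theorem result {n N : ℕ} (hn : Even n) (a : Fin n → ℝ) (m : Fin (n + 1)) (α γ : Fin N → ℝ) (hα : StrictAnti α)
    (hγ : StrictMono γ) (c y A B : ℝ) (hcA : c < A) (hBy : B < y) (hAB : A < B)
    (hgap : ∀ t, c < t → t < y → StrictMono (branch a m t)) (h : ∀ j, α j < A ∧ B < γ j) (hc : ∀ j, c < α j)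
    (hy : ∀ j, γ j < y) : FewExceptions (functions a m α γ) A B := by
  have heq : functions a m α γ = Pool.Agent.Q29.HypInd.fHL a m α γ := by
    funext z t
    rcases z with ⟨j, i⟩ | x
    · have hne : γ j - α j ≠ 0 := by linarith [(h j).1, (h j).2]
      fin_cases i
      · rfl
      · rfl
      · show K (1 - (t - α j) / (γ j - α j)) = TH818.AR.KK ((γ j - t) / (γ j - α j))
        have : 1 - (t - α j) / (γ j - α j) = (γ j - t) / (γ j - α j) := by
          field_simp
          ring
        rw [this]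
        rfl
    · rfl
  rw [heq]
  exact few _ A B (Pool.Agent.Q29.HypInd.fHL_an a m α γ c y A B hcA hBy hAB hgap h)
    (fun d => Pool.Agent.Q29.HypInd.fHL_ind hn a m α γ hα hγ c y A B hcA hBy hAB hgap h hc hy d)

end Pool.Agent.Results.MP_5591bc_ag.MultiplesOfPeriods
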