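import Mathlib
import Pool.Agent.Q47.AB.OvX
import Pool.Agent.Q29.HypInd4

/-!
# Periods of hyperelliptic curves and elliptic integrals at algebraic points: pairs from two arbitrary dense sets

The functions are the periods of `y ^ 2 = ∏ (x - a_i) (x - t)` and complete elliptic integrals; for almost all tuples of algebraic points
of any finite set and arbitrary constants `ξ_i`, every nonconstant polynomial value `x` over `ℤ[ξ]` has the property `PGood`: for
arbitrary dense sets `A`, `B` of integers the numbers `b x a ^ k c + R_c(a) + y_a`, `(a, c) ∈ A × B`, are uniformly distributed modulo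
one with a power saving, at all the scales `M` between `T ^ B` and `T ^ E`.

The proof uses the theorem of helper23 on approximate relations over arbitrary constants at algebraic points (`Q23.AQ.fewR`), the
independence of the functions (`Q29.HypInd`, `Y118.HP`), a bilinear estimate and an inverse theorem for the sums of Weyl (`Q47/DG/EqdK`).
-/

set_option autoImplicit false

namespace Pool.Agent.Results.MP_5591bc_ag.PairsFromDenseSets

open Finset Polynomial

/-- Polynomials over two dense sets are uniformly distributed at the scale `M`, with a power saving: for all integers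
`b ≠ 0` with `|b| ≤ M ^ κ`, all degrees `1 ≤ k ≤ K`, all integers `H ≥ M ^ η`, ALL sets `A` of integers in `[0, M)` and `B` of
integers in `[0, H)` with `|A| |B| ≥ M ^ (1 - κ) H`, all real numbers `y_a`, all real polynomials `R_c` of degree less than
`k` and all `0 ≤ u ≤ v ≤ 1`, the number of the pairs `(a, c) ∈ A × B` with the fractional part of
`b x a ^ k c + R_c(a) + y_a` in `[u, v)` is `(v - u) |A| |B|`, up to `|A| |B| M ^ (-κ)`. -/
def PGood (K : ℕ) (η κ : ℝ) (M : ℕ) (x : ℝ) : Prop :=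
  ∀ b : ℤ, b ≠ 0 → |(b : ℝ)| ≤ (M : ℝ) ^ κ → ∀ k : ℕ, 1 ≤ k → k ≤ K → ∀ H : ℕ, (M : ℝ) ^ η ≤ H →
    ∀ A B : Finset ℕ, (∀ a ∈ A, a < M) → (∀ c ∈ B, c < H) → (M : ℝ) ^ (1 - κ) * H ≤ #A * #B →
    ∀ (y : ℕ → ℝ) (R : ℕ → ℝ[X]), (∀ c, (R c).degree < k) → ∀ u v : ℝ, 0 ≤ u → u ≤ v → v ≤ 1 →
      |(#{i ∈ A ×ˢ B | u ≤ Int.fract (b * x * i.1 ^ k * i.2 + (R i.2).eval (i.1 : ℝ) + y i.1) ∧
          Int.fract (b * x * i.1 ^ k * i.2 + (R i.2).eval (i.1 : ℝ) + y i.1) < v} : ℝ) -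
        (v - u) * (#A * #B)| ≤ #A * #B * (M : ℝ) ^ (-κ)

theorem pgood_iff (K : ℕ) (η κ : ℝ) (M : ℕ) (x : ℝ) : PGood K η κ M x ↔ Pool.Agent.Q47.DG.PGood K η κ M x := Iff.rfl

/-- The value at `y` of the polynomial `P` whose coefficients are integer polynomials in the numbers `ξ_1, …, ξ_g`. -/
noncomputable def value {g : ℕ} {τ : Type} (ξ : Fin g → ℝ) (y : τ → ℝ) (P : MvPolynomial τ (MvPolynomial (Fin g) ℤ)) : ℝ :=
  MvPolynomial.eval₂ (MvPolynomial.aeval ξ : MvPolynomial (Fin g) ℤ →ₐ[ℤ] ℝ).toRingHom y P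

/-- The polynomials of degree at most `d` in every variable whose coefficients are polynomials in `ξ_1, …, ξ_g` of degree at most
`d` in every variable with integer coefficients of absolute value at most `R`, with a nonconstant coefficient whose value is at
least `r` in absolute value. -/
def Admissible {g : ℕ} {τ : Type} (ξ : Fin g → ℝ) (d : ℕ) (R r : ℝ) (P : MvPolynomial τ (MvPolynomial (Fin g) ℤ)) : Prop :=
  (∀ j, P.degreeOf j ≤ d) ∧ (∀ e i, (P.coeff e).degreeOf i ≤ d) ∧ (∀ e u, |(((P.coeff e).coeff u : ℤ) : ℝ)| ≤ R) ∧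
    ∃ e, e ≠ 0 ∧ r ≤ |MvPolynomial.aeval ξ (P.coeff e)|

/-- The numbers of a number field `F`, with an embedding `ι`, which are in `[a, b]` and are quotients of integers of `F` all of
whose conjugates have absolute value at most `T`. -/
def IsPoint {F : Type} [Field F] (ι : F →+* ℂ) (a b T : ℝ) (x : F) : Prop :=
  (∃ t : ℝ, a ≤ t ∧ t ≤ b ∧ ι x = t) ∧
    ∃ α β : NumberField.RingOfIntegers F, β ≠ 0 ∧ (∀ φ : F →+* ℂ, ‖φ α‖ ≤ T ∧ ‖φ β‖ ≤ T) ∧ x = α / β

/-- The `n`-tuples `q` of numbers of `X` for which there are an admissible polynomial `P` and an `M` between `T ^ B` and `T ^ E`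
such that its value at the numbers `f_i(q_j)` does not have the property `PGood` at the scale `M`. -/
def Exceptional {κ F : Type} [Field F] {g : ℕ} (n : ℕ) (f : κ → ℝ → ℝ) (ι : F →+* ℂ) (X : Finset F) (ξ : Fin g → ℝ)
    (d K : ℕ) (η A H κ₀ B E T : ℝ) : Set (Fin n → F) :=
  {q | (∀ j, q j ∈ X) ∧
    ∃ P : MvPolynomial (Fin n × κ) (MvPolynomial (Fin g) ℤ), Admissible ξ d (T ^ A) (T ^ (-H)) P ∧
      ∃ M : ℕ, T ^ B ≤ (M : ℝ) ∧ (M : ℝ) ≤ T ^ E ∧ ¬ PGood K η κ₀ M (value ξ (fun z => f z.2 (ι (q z.1)).re) P)}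

/-- The assertion for the functions `f_i` on `[a, b]`. -/
def FewExceptions {κ : Type} (f : κ → ℝ → ℝ) (a b : ℝ) : Prop :=
  ∀ (m n g d : ℕ) (H A ε : ℝ), 0 ≤ H → 0 ≤ A → 0 < ε → ∃ B : ℝ, 1 ≤ B ∧ ∀ (K : ℕ) (η : ℝ), 0 < η → ∀ E : ℝ,
    ∃ κ₀ : ℝ, 0 < κ₀ ∧ ∃ C T₀ : ℝ,
    ∀ (F : Type) [Field F] [NumberField F], Module.finrank ℚ F ≤ m → ∀ (ι : F →+* ℂ) (ξ : Fin g → ℝ) (T : ℝ), T₀ ≤ T →
      (∀ i, |ξ i| ≤ T ^ H) → ∀ X : Finset F, (∀ x ∈ X, IsPoint ι a b T x) →
        (Exceptional n f ι X ξ d K η A H κ₀ B E T).Finite ∧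
        ((Exceptional n f ι X ξ d K η A H κ₀ B E T).ncard : ℝ) ≤ C * T ^ ε * (X.card : ℝ) ^ (n - 1)

/-- The branch points: `t` inserted at place `m` in the sequence of the `a i`. -/
noncomputable def branch {n : ℕ} (a : Fin n → ℝ) (m : Fin (n + 1)) (t : ℝ) : Fin (n + 1) → ℝ :=
  Fin.insertNth (α := fun _ => ℝ) m t a

/-- The period `∫ x^j dx / √|∏ (x - e i)|` over the segment `[e l, e (l + 1)]`. -/
noncomputable def period {n : ℕ} (e : Fin (n + 1) → ℝ) (l j : Fin n) : ℝ :=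
  ∫ x in (e l.castSucc)..(e l.succ), x ^ (j : ℕ) / √|∏ i, (x - e i)|

/-- The complete elliptic integral of the first kind, `K(s) = ∫_0^{π/2} (1 - s sin²θ)^(-1/2) dθ`. -/
noncomputable def K (s : ℝ) : ℝ := ∫ θ in (0 : ℝ)..(Real.pi / 2), 1 / √(1 - s * Real.sin θ ^ 2)

/-- The complete elliptic integral of the second kind, `E(s) = ∫_0^{π/2} (1 - s sin²θ)^(1/2) dθ`. -/
noncomputable def E (s : ℝ) : ℝ := ∫ θ in (0 : ℝ)..(Real.pi / 2), √(1 - s * Real.sin θ ^ 2)

/-- The functions `K(s)`, `E(s)`, `K(1 - s)` for `s = (t - α_i) / (γ_i - α_i)`, `i < N`, and the periods of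
`y ^ 2 = ∏ (x - a_i) (x - t)` for the pairs `(l, j)` with `j ≤ l`. -/
noncomputable def functions {n N : ℕ} (a : Fin n → ℝ) (m : Fin (n + 1)) (α γ : Fin N → ℝ)
    (z : (Fin N × Fin 3) ⊕ {x : Fin n × Fin n // x.2 ≤ x.1}) (t : ℝ) : ℝ :=
  match z with
  | Sum.inl (j, i) => ![K ((t - α j) / (γ j - α j)), E ((t - α j) / (γ j - α j)), K (1 - (t - α j) / (γ j - α j))] i
  | Sum.inr x => period (branch a m t) x.1.1 x.1.2

theorem few {κ : Type} [Fintype κ] [DecidableEq κ] (f : κ → ℝ → ℝ) (a b : ℝ)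
    (han : ∀ i, AnalyticOnNhd ℝ (f i) (Set.Icc a b)) (hind : Pool.Agent.Y120.AInd f a b) : FewExceptions f a b := by
  intro m n g d H A ε hH hA hε
  obtain ⟨B, hB, h⟩ := Pool.Agent.Q47.AB.badX_count f a b han hind m n g d H A ε hH hA hε
  refine ⟨B, hB, fun K η hη E => ?_⟩
  obtain ⟨κ₀, C, T₀, hκ₀, hC⟩ := h (PGood K η) (Pool.Agent.Q47.DG.Abs.engine_prod K η hη) E
  refine ⟨κ₀, hκ₀, C, T₀, fun F _ _ hF ι ξ T hT hξ X hX => ?_⟩
  have hsub : Exceptional n f ι X ξ d K η A H κ₀ B E T ⊆ Pool.Agent.Q47.AB.BadX (PGood K η) n g d ι X f (T ^ A) (T ^ (-H)) κ₀ (T ^ B) (T ^ E) ξ := by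
    rintro q ⟨hq, P, ⟨hP1, hP2, hP3, hP4⟩, hbad⟩
    exact ⟨hq, P, hP1, hP2, hP3, hP4, hbad⟩
  have hfin := Pool.Agent.Q47.AB.badX_fin (PGood K η) n g d ι X f (T ^ A) (T ^ (-H)) κ₀ (T ^ B) (T ^ E) ξ
  refine ⟨hfin.subset hsub, le_trans ?_ (hC F hF ι ξ T hT hξ X hX)⟩
  exact_mod_cast Set.ncard_le_ncard hsub hfin

/-- Let `n` be even, `m ≤ n` and `a_1, …, a_n` real numbers such that for all `t` in `(c, y)` the numbers `a_i` with `t` inserted at
place `m` are strictly increasing, let `c < α_N < ⋯ < α_1 < A < B < γ_1 < ⋯ < γ_N < y` (for `N = 0`: `c < A < B < y`). -/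
theorem result {n N : ℕ} (hn : Even n) (a : Fin n → ℝ) (m : Fin (n + 1)) (α γ : Fin N → ℝ) (hα : StrictAnti α)
    (hγ : StrictMono γ) (c y A B : ℝ) (hcA : c < A) (hBy : B < y) (hAB : A < B)
    (hgap : ∀ t, c < t → t < y → StrictMono (branch a m t)) (h : ∀ j, α j < A ∧ B < γ j) (hc : ∀ j, c < α j)
    (hy : ∀ j, γ j < y) : FewExceptions (functions a m α γ) A B := by
  have heq : functions a m α γ = Pool.Agent.Q29.HypInd.fHL a m α γ := by
    funext z t
    rcases z with ⟨j, i⟩ | x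
    · have hne : γ j - α j ≠ 0 := by linarith [(h j).1, (h j).2]
      fin_cases i
      · rfl
      · rfl
      · show K (1 - (t - α j) / (γ j - α j)) = TH818.AR.KK ((γ j - t) / (γ j - α j))
        have : 1 - (t - α j) / (γ j - α j) = (γ j - t) / (γ j - α j) := by
          field_simp
          ring
        rw [this]
        rfl
    · rfl
  rw [heq]
  exact few _ A B (Pool.Agent.Q29.HypInd.fHL_an a m α γ c y A B hcA hBy hAB hgap h)
    (fun d => Pool.Agent.Q29.HypInd.fHL_ind hn a m α γ hα hγ c y A B hcA hBy hAB hgap h hc hy d)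

end Pool.Agent.Results.MP_5591bc_ag.PairsFromDenseSets
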