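import Pool.Agent.Q229.RAE
import Pool.Agent.TH818.AP.Mv
import Pool.Agent.TH818.AP.Pull

/-!
# Periods of the algebraic fibres of products of Legendre families near almost every real point

The fibres of the family `E_{s_1} × ⋯ × E_{s_n}`, `E_s : y² = x(x-1)(x-s)`, over the algebraic points `s_j = φ_j(q_j)`, where
`φ_j` is a local inverse of a polynomial `ψ_j` over `ℚ` and `q_j` is rational: `ψ_j(s_j) = q_j`.

The starting file `AlgebraicFibres` bounds the number of the exceptional tuples of height `T` by `T^(2(n-1)+β)` for some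
`β < 2`; with the counting theorem of `Pool.Agent.Y120.RealPolys` (`β` arbitrarily small) and coverings we obtain all rational
points near all real points outside a set of small Hausdorff dimension.
-/

set_option autoImplicit false

open MeasureTheory Filter Polynomial

namespace Pool.Agent.Results.MP_5591bc_ag.RationalsNearRealPoints

/-- `K(t) = ∫_0^(π/2) dθ / √(1 - t sin²θ)`. -/
noncomputable def K (t : ℝ) : ℝ := ∫ θ in (0 : ℝ)..(Real.pi / 2), 1 / √(1 - t * Real.sin θ ^ 2)

/-- `E(t) = ∫_0^(π/2) √(1 - t sin²θ) dθ`. -/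
noncomputable def E (t : ℝ) : ℝ := ∫ θ in (0 : ℝ)..(Real.pi / 2), √(1 - t * Real.sin θ ^ 2)

/-- The `3n + 1` numbers `π`, `K(s_j)`, `E(s_j)`, `K(1 - s_j)`. -/
noncomputable def periods {n : ℕ} (s : Fin n → ℝ) (x : Option (Fin n × Fin 3)) : ℝ :=
  match x with
  | none => Real.pi
  | some (j, i) => ![K (s j), E (s j), K (1 - s j)] i

/-- **Theorem.** Let `n ≥ 1`, let `φ_j` be analytic on the open set `D_j`, with values in `(0, 1)` and `ψ_j(φ_j(t)) = t` for a
polynomial `ψ_j` over `ℚ` (so that `s_j = φ_j(q_j)` is algebraic for rational `q_j`), and consider the numbers `π`, `K(s_j)`,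
`E(s_j)`, `K(1 - s_j)` (domain: `x_j ∈ D_j`). Then for every `τ > 0` there is a set `Z ⊂ ℝ^n` of Hausdorff dimension at most
`2 (n - 1) / τ` (dimension `0` for `n = 1`), and of Lebesgue measure zero if `2 (n - 1) < n τ`, such that for all `x ∉ Z` in the domain,
all `d`, `A`, some `B` and all sufficiently large `T` the following holds for ALL rational points `q` with denominators at most `T`
and `|x_j - q_j| ≤ T ^ (-τ)`: every nonzero integer polynomial of degree at most `d` in each variable with coefficients at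
most `T ^ A` takes at these numbers a value larger than `T ^ (-B)` in absolute value. -/
theorem result (n : ℕ) (hn : 1 ≤ n) (φ : Fin n → ℝ → ℝ) (ψ : Fin n → ℚ[X]) (D : Fin n → Set ℝ)
    (hD : ∀ j, IsOpen (D j)) (hφ : ∀ j, AnalyticOnNhd ℝ (φ j) (D j)) (h01 : ∀ j, ∀ t ∈ D j, 0 < φ j t ∧ φ j t < 1)
    (hψ : ∀ j, ∀ t ∈ D j, aeval (φ j t) (ψ j) = t) (τ : ℝ) (hτ : 0 < τ) :
    ∃ Z : Set (Fin n → ℝ), dimH Z ≤ ENNReal.ofReal (2 * ((n : ℝ) - 1) / τ) ∧
      (2 * ((n : ℝ) - 1) < n * τ → volume Z = 0) ∧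
      ∀ x : Fin n → ℝ, (∀ j, x j ∈ D j) → x ∉ Z → ∀ (d : ℕ) (A : ℝ), ∃ B : ℝ, ∀ᶠ T : ℝ in atTop,
        ∀ q : Fin n → ℚ, (∀ j, ((q j).den : ℝ) ≤ T ∧ |x j - q j| ≤ T ^ (-τ)) →
        ∀ P : MvPolynomial (Option (Fin n × Fin 3)) ℤ, P ≠ 0 → (∀ z, P.degreeOf z ≤ d) →
          (∀ u, |((P.coeff u : ℤ) : ℝ)| ≤ T ^ A) → T ^ (-B) < |MvPolynomial.aeval (periods fun j => φ j (q j)) P| := by
  refine Pool.Agent.Q229.RA.masterOR hn (fun j i t => TH818.AP.KC 0 1 i (φ j t)) D hD
    (fun j i t ht => (TH818.AP.kc_an _ _ one_pos i (φ j t) (h01 j t ht).1 (h01 j t ht).2).fun_comp (hφ j t ht)) ?_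
    (fun q => periods fun j => φ j (q j)) (fun _ => rfl) ?_ τ hτ
  · intro j a b hab hsub d
    exact TH818.AP.rindep_pull (fun e : Fin 3 → Fin (d + 1) => TH818.AP.g1 e) 0 1
      (fun c d' hc hcd hd => TH818.AP.g1_indep d c d' hc hcd hd) a b hab (φ j) ((hφ j).mono hsub).continuousOn
      (fun t ht => h01 j t (hsub ht)) ((ψ j).map (algebraMap ℚ ℝ)) (fun t ht => by
        rw [eval_map_algebraMap]
        exact hψ j t (hsub ht))
  · intro q hq j i
    fin_cases i
    · simp [TH818.AP.KC, periods, K, TH818.AR.KK]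
    · simp [TH818.AP.KC, periods, E, TH818.AR.EE]
    · simp [TH818.AP.KC, periods, K, TH818.AR.KK]

end Pool.Agent.Results.MP_5591bc_ag.RationalsNearRealPoints
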