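import Pool.Agent.Q23.MV.Share

/-!
# Products of hyperelliptic curves whose branch points are taken from a common set of parameters

Let `e_0 < ⋯ < e_(M-1)` be parameters and let `C_1, …, C_k` be the curves `y² = ∏_(m ∈ J_i) (x - e_m)`, where the sets `J_i` have
odd cardinality `2 g_i + 1`. The product `C_1 × ⋯ × C_k` is a family over the `M`-dimensional space `S` of the parameters; the
curves may share all but one of their branch points. By the Riemann-Legendre relations the periods of `C_i` are algebraic
functions of `e`, of `π` and of the `g_i (2 g_i + 1)` periods `∫ x^j dx / y` over the segments `[e_l, e_(l+1)]`, `j ≤ l`, between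
successive branch points of `C_i`.

We assume that no `J_i` is contained in the union of the previous ones. (For `J_i` which are all equal to one set and one more
point `t_i`, these are the fibre powers of the family `y² = f(x) (x - t)` over a common variable polynomial `f`.) Then (1) the
`∑ g_i (2 g_i + 1)` functions are algebraically independent over `ℂ(S)`, and (2) at the points of `S` with coordinates in a number field `F` of bounded degree, of height at most
`T`, the periods satisfy no relation of bounded degree with coefficients in `F` of height at most `T^A`, even with arbitrary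
complex constants, outside at most `C T^ε` hypersurfaces of `S` of bounded degree.
-/

set_option autoImplicit false

open Set Filter Topology NumberField

namespace Pool.Agent.Results.MP_5591bc_ag.SharedBranchPoints

/-- The period `∫ x^j dx / √|∏ (x - e r)|` over the segment `[e l, e (l + 1)]`. -/
noncomputable def period {N : ℕ} (e : Fin (N + 1) → ℝ) (l j : Fin N) : ℝ :=
  ∫ x in (e l.castSucc)..(e l.succ), x ^ (j : ℕ) / √|∏ r, (x - e r)|

/-- The pairs `(l, j)` with `j ≤ l < N`; their number is `N (N + 1) / 2`. -/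
abbrev Lower (N : ℕ) : Type := {k : Fin N × Fin N // k.2 ≤ k.1}

/-- The functions `w (i, (l, j))` are analytic on `U`, and for all real `e` in a neighbourhood of `e0` the value of
`w (i, (l, j))` at `e` is the period `∫ x^j dx / √|∏ (x - e_m)|` of the curve `C_i` with the branch points `e_m`, `m` in the
image of `σ i`, over the segment between its branch points number `l` and `l + 1`. -/
def Continues {M k : ℕ} {N : Fin k → ℕ} (σ : ∀ i, Fin (N i + 1) → Fin M) (U : Set (Fin M → ℂ)) (e0 : Fin M → ℝ)
    (w : (Σ i, Lower (N i)) → (Fin M → ℂ) → ℂ) : Prop :=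
  (∀ x, AnalyticOnNhd ℂ (w x) U) ∧
    ∀ᶠ e : Fin M → ℝ in 𝓝 e0, ∀ x, w x (fun m => (e m : ℂ)) = ((period (e ∘ σ x.1) x.2.1.1 x.2.1.2 : ℝ) : ℂ)

/-- For every compact subset `L` of `U` and all `m`, `g`, `d`, `A` and `ε > 0` there are `D`, `C`, `T₀` such that for every
number field `F` of degree at most `m`, every embedding `ι` of `F` in `ℂ`, all complex numbers `ξ_1, …, ξ_g` and all
`T ≥ T₀` there are at most `C T^ε` hypersurfaces `Q = 0` of degree at most `D` with the following property. If `x` is a
point with coordinates in `F` outside these hypersurfaces, with image in `L`, whose coordinates are quotients of two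
integers of `F` all of whose conjugates have absolute value at most `T`, then no nonzero polynomial `P` of degree at most
`d` in each variable, with coefficients of the form `∑ ξ_a ι(c_a)`, where the `c_a` are integers of `F` all of whose
conjugates have absolute value at most `T ^ A`, vanishes at the numbers `f y (ι x)`. -/
def FewRelations {X κ : Type} [Fintype X] (U : Set (X → ℂ)) (f : κ → (X → ℂ) → ℂ) : Prop :=
  ∀ L : Set (X → ℂ), IsCompact L → L ⊆ U → ∀ (m g d : ℕ) (A ε : ℝ), 0 < ε →
    ∃ (D : ℕ) (C T₀ : ℝ), ∀ (F : Type) [Field F] [NumberField F], Module.finrank ℚ F ≤ m → ∀ (ι : F →+* ℂ)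
      (ξ : Fin g → ℂ) (T : ℝ), T₀ ≤ T → ∃ Φ : Finset (MvPolynomial X ℂ), (Φ.card : ℝ) ≤ C * T ^ ε ∧
        (∀ Q ∈ Φ, Q ≠ 0 ∧ Q.totalDegree ≤ D) ∧
        ∀ x : X → F, (fun j => ι (x j)) ∈ L →
          (∀ j, ∃ a b : 𝓞 F, b ≠ 0 ∧ (∀ φ : F →+* ℂ, ‖φ a‖ ≤ T ∧ ‖φ b‖ ≤ T) ∧ x j = a / b) →
          (∀ Q ∈ Φ, MvPolynomial.eval (fun j => ι (x j)) Q ≠ 0) →
          ∀ P : MvPolynomial κ ℂ, P ≠ 0 → (∀ y, P.degreeOf y ≤ d) →
            (∀ s, ∃ c : Fin g → 𝓞 F, (∀ a (φ : F →+* ℂ), ‖φ (c a)‖ ≤ T ^ A) ∧ P.coeff s = ∑ a, ξ a * ι (c a)) →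
            MvPolynomial.aeval (fun y => f y (fun j => ι (x j))) P ≠ 0

open Pool.Agent.Q23.MV

/-- **Products of hyperelliptic curves with common parameters.** Let `σ i`, `i < k`, be the increasing enumerations of subsets
`J_i` of `{0, …, M - 1}` of odd cardinality `N i + 1`, such that every `J_i` has an element which is in no `J_i'`, `i' < i`. Let
`U` be a connected open subset of `ℂ^M` which contains a real point `e0` with increasing coordinates, and let `w` be the
periods of the curves, continued to `U`. (1) No nonzero polynomial in the functions `w x` with coefficients in `ℂ[e]` vanishes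
identically on `U`. (2) There are few relations between their values in the sense of `FewRelations`. -/
theorem result : ∀ (M k : ℕ) (N : Fin k → ℕ), 1 ≤ M → (∀ i, Even (N i)) → ∀ σ : ∀ i, Fin (N i + 1) → Fin M,
    (∀ i, StrictMono (σ i)) → (∀ i, ∃ r, ∀ i' < i, ∀ s, σ i' s ≠ σ i r) →
    ∀ U : Set (Fin M → ℂ), IsOpen U → IsPreconnected U → ∀ e0 : Fin M → ℝ, StrictMono e0 → (fun m => (e0 m : ℂ)) ∈ U →
      ∀ w : (Σ i, Lower (N i)) → (Fin M → ℂ) → ℂ, Continues σ U e0 w →
        (∀ P : MvPolynomial (Σ i, Lower (N i)) (MvPolynomial (Fin M) ℂ), P ≠ 0 →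
          ∃ e ∈ U, MvPolynomial.eval₂ (MvPolynomial.eval e) (fun x => w x e) P ≠ 0) ∧
        FewRelations U w := by
  classical
  intro M k N hM hN σ hσ hpriv U hU hUc e0 he0 h0 w ⟨hwa, hw⟩
  haveI : Nonempty (Fin M) := ⟨⟨0, hM⟩⟩
  obtain ⟨δ, hδ, hball⟩ : ∃ δ > 0, ∀ e : Fin M → ℝ, (∀ m, e m ∈ Icc (e0 m - δ / 2) (e0 m + δ / 2)) →
      StrictMono e ∧ (fun m => (e m : ℂ)) ∈ U ∧
        ∀ x, w x (fun m => (e m : ℂ)) = ((period (e ∘ σ x.1) x.2.1.1 x.2.1.2 : ℝ) : ℂ) := by
    have h1 : ∀ᶠ e : Fin M → ℝ in 𝓝 e0, (fun m => (e m : ℂ)) ∈ U := by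
      have hc : Continuous fun e : Fin M → ℝ => fun m => (e m : ℂ) :=
        continuous_pi fun m => Complex.continuous_ofReal.comp (continuous_apply m)
      exact hc.continuousAt.eventually (hU.mem_nhds h0)
    have h2 : ∀ᶠ e : Fin M → ℝ in 𝓝 e0, StrictMono e := strictMono_near' e0 he0
    obtain ⟨δ, hδ, hb⟩ := Metric.eventually_nhds_iff_ball.1 (h2.and (h1.and hw))
    refine ⟨δ, hδ, fun e he => hb e ?_⟩
    rw [Metric.mem_ball, dist_pi_lt_iff hδ]
    intro m
    rw [Real.dist_eq, abs_lt]
    constructor
    · linarith [(he m).1]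
    · linarith [(he m).2]
  have hAI := AI_curves (fun m => e0 m - δ / 2) (fun m => e0 m + δ / 2) (fun m => by linarith) (fun e he => (hball e he).1)
    k N hN σ hσ hpriv
  have ind : ∀ p : MvPolynomial (Σ i, Lower (N i)) (MvPolynomial (Fin M) ℂ),
      (∀ z ∈ U, Pool.Agent.Y890.MV.evM w z p = 0) → p = 0 := by
    refine evM_of_AI U w fun P hP => hAI P fun e he => ?_
    rw [← hP _ (hball e he).2.1]
    congr 2
    funext x
    rcases x with x | m
    · exact ((hball e he).2.2 x).symm
    · rfl
  refine ⟨fun P hP => ?_, ?_⟩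
  · by_contra hcon
    push Not at hcon
    exact hP (ind P hcon)
  · intro Lc hLc hLU m g d A ε hε
    exact mvFew hUc hU ⟨_, h0⟩ hwa ind Lc hLc hLU m g d A ε hε

end Pool.Agent.Results.MP_5591bc_ag.SharedBranchPoints
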